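import Pool.Agent.Run7.h744.DD.All
import Pool.Agent.Run7.h744.DD.Zero
import Pool.Agent.W795.TQ.DPub
import Pool.Agent.W503.TQ.Base

/-!
Stability of strong solutions among Leray-Hopf solutions, public form.
-/

set_option autoImplicit false
set_option maxHeartbeats 4000000

open MeasureTheory Set Filter Topology
open scoped InnerProductSpace ContDiff

namespace Run7.h148.NC

open H772R2.NS H772R2.NS.Pub H772R2.NSR H772R2.NSG Pool.Agent.W795.TQ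

section abs

variable {H K : Type} [NormedAddCommGroup H] [InnerProductSpace ℝ H] [CompleteSpace H]
  [NormedAddCommGroup K] [InnerProductSpace ℝ K] [CompleteSpace K]
  {W : Submodule ℝ (H × K)} {m : H → K} {C ν T : ℝ}

theorem stab_abs (Fr : Frame W m C) (hν : 0 < ν) (hT : 0 < T) {v v' : ℝ → H} {D D' : ℝ → K}
    (S : Str W m ν T (fun _ => 0) v v' D D') {ε : ℝ} (hε : 0 < ε) :
    ∃ δ : ℝ, 0 < δ ∧ ∀ (u : ℝ → H) (G : ℝ → K),
      LH W m T (fun _ => ν) (fun _ => 0) (u 0) u G → ‖u 0 - v 0‖ < δ →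
        ∀ t ∈ Icc 0 T, ‖u t - v t‖ ≤ ε := by
  have hF : ContinuousOn (fun _ : ℝ => (0 : K)) (Icc 0 T) := continuousOn_const
  obtain ⟨Z, S2⟩ := Pool.Agent.W503.TQ.toSt hF S
  set c : ℝ := stc C ν T Z with hc
  have hc0 : 0 ≤ c := stc_nonneg hν hT
  refine ⟨ε / (c + 1), by positivity, fun u G L hd t ht => ?_⟩
  have Co : Coef ν T (fun _ => ν) (fun _ : ℝ => (0 : K)) :=
    ⟨mem_cont continuousOn_const, Eventually.of_forall fun _ => le_rfl, mem_cont hF⟩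
  obtain ⟨h1, -, -⟩ := stab Fr hν hT Co L S2
  have h2 := h1 t ht
  have hgap : gap ν T Z (fun _ => ν) (fun _ => ν) (fun _ : ℝ => (0 : K))
      (fun _ : ℝ => (0 : K)) (u 0) (v 0) = ‖u 0 - v 0‖ ^ 2 / 2 := by
    unfold gap
    simp
  rw [hgap, ← hc] at h2
  have h4 : ‖u 0 - v 0‖ * (c + 1) ≤ ε := ((lt_div_iff₀ (by positivity)).1 hd).le
  have h5 : 0 ≤ ‖u 0 - v 0‖ := norm_nonneg _
  have h6 : 0 ≤ ‖u t - v t‖ := norm_nonneg _
  have h7 : ‖u t - v t‖ ^ 2 ≤ ε ^ 2 := by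
    have h8 : (‖u 0 - v 0‖ * (c + 1)) ^ 2 ≤ ε ^ 2 := by
      have : 0 ≤ ‖u 0 - v 0‖ * (c + 1) := by positivity
      gcongr
    nlinarith [sq_nonneg (‖u 0 - v 0‖), mul_nonneg hc0 (sq_nonneg ‖u 0 - v 0‖),
      mul_nonneg (mul_nonneg hc0 hc0) (sq_nonneg ‖u 0 - v 0‖)]
  exact (pow_le_pow_iff_left₀ h6 hε.le (by norm_num)).1 h7

theorem lh_of_str (hT : 0 < T) {v v' : ℝ → H} {D D' : ℝ → K}
    (S : Str W m ν T (fun _ => 0) v v' D D') :
    AEStronglyMeasurable v (volume.restrict (Ioc 0 T)) ∧ MemLp D 2 (volume.restrict (Ioc 0 T)) := by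
  have hu : ContinuousOn v (Icc 0 T) := prim_cont S.u1m S.pu
  have hz : ContinuousOn D (Icc 0 T) := prim_cont S.z1m S.pz
  exact ⟨(mem_cont (p := 2) hu).aestronglyMeasurable, mem_cont hz⟩

end abs

/-- Leray-Hopf solutions stay near a strong solution if they start near it. -/
theorem stab_pub {Ω : Set R3} (hΩ : IsOpen Ω) (hb : Bornology.IsBounded Ω) {ν T : ℝ}
    (hν : 0 < ν) (hT : 0 < T) {v v' : ℝ → L2 Ω R3} {D D' : ℝ → L2 Ω Mat}
    (S : IsStrong Ω ν T (fun _ => 0) v v' D D') {ε : ℝ} (hε : 0 < ε) :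
    ∃ δ : ℝ, 0 < δ ∧ ∀ (u : ℝ → L2 Ω R3) (G : ℝ → L2 Ω Mat),
      IsLerayHopf Ω ν T (fun _ => 0) u G → ‖u 0 - v 0‖ < δ → ∀ t ∈ Icc 0 T, ‖u t - v t‖ ≤ ε := by
  obtain ⟨C, Fr⟩ := exists_frame (Ω := (Ω : Set E3)) hΩ hb
  have hF : ContinuousOn (fun _ : ℝ => (0 : L2M (Ω : Set E3))) (Icc 0 T) := continuousOn_const
  have S1 := Run7.h744.DD.str_of_strong (Ω := (Ω : Set E3)) hΩ hT Fr hF S
  obtain ⟨δ, hδ, h⟩ := stab_abs Fr hν hT S1 hε
  refine ⟨δ, hδ, fun u G L hd t ht => ?_⟩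
  have L1 : LH (graphW (Ω : Set E3)) (tensL (Ω := (Ω : Set E3))) T (fun _ => ν)
      (fun _ => (0 : L2M (Ω : Set E3))) (u 0) u G :=
    lh_mid (Ω := (Ω : Set E3)) hΩ hF Fr L.meas
      (by filter_upwards [L.grad] with s hs; exact mem_pub.mpr hs) L.gradL2
      (fun φ hφ t ht => L.eqn φ ((isTest_iff φ).mpr hφ) t ht) L.energy
  exact h u G L1 hd t ht

/-- strong solutions are Leray-Hopf solutions -/
theorem lh_of_strong {Ω : Set R3} (hΩ : IsOpen Ω) (hb : Bornology.IsBounded Ω) {ν T : ℝ}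
    (hT : 0 < T) {v v' : ℝ → L2 Ω R3} {D D' : ℝ → L2 Ω Mat}
    (S : IsStrong Ω ν T (fun _ => 0) v v' D D') :
    IsLerayHopf Ω ν T (fun _ => 0) v D := by
  obtain ⟨C, Fr⟩ := exists_frame (Ω := (Ω : Set E3)) hΩ hb
  have hF : ContinuousOn (fun _ : ℝ => (0 : L2M (Ω : Set E3))) (Icc 0 T) := continuousOn_const
  have S1 := Run7.h744.DD.str_of_strong (Ω := (Ω : Set E3)) hΩ hT Fr hF S
  obtain ⟨h1, h2⟩ := lh_of_str hT S1
  refine ⟨h1, ?_, h2, S.eqn, ?_⟩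
  · filter_upwards [ae_restrict_mem measurableSet_Ioc] with s hs
    exact S.grad s (Ioc_subset_Icc_self hs)
  · intro t ht
    exact (S1.energy t ht).le

end Run7.h148.NC
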